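import Pool.Agent.H44.HC.Targets

set_option autoImplicit false

namespace Pool.Agent.H56.HC.HL

open Pool.Agent.H44.HC SimpleGraph

theorem hl : T_HL := by
  intro V _ _ G L hlen hnd hall hchain hclose
  have hne : L ≠ [] := by
    rintro rfl
    simp at hlen
  intro _
  have hadj : G.Adj (L.getLast hne) (L.head hne) :=
    hclose _ _ (List.head?_eq_some_head hne) (List.getLast?_eq_some_getLast hne)
  let w : G.Walk (L.head hne) (L.getLast hne) := Walk.ofSupport L hne hchain
  have hsup : w.support = L := Walk.support_ofSupport hne hchain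
  have hwlen : w.length = L.length - 1 := Walk.length_ofSupport hne hchain
  have hpath : w.IsPath := by
    rw [Walk.isPath_def, hsup]
    exact hnd
  refine ⟨L.getLast hne, Walk.cons hadj w, ?_⟩
  rw [Walk.isHamiltonianCycle_iff_isCycle_and_support_count_tail_eq_one]
  refine ⟨?_, ?_⟩
  · rw [Walk.cons_isCycle_iff]
    refine ⟨hpath, ?_⟩
    intro hmem
    rw [Sym2.eq_swap] at hmem
    have := hpath.length_eq_one_of_mem_edges hmem
    omega
  · intro a
    rw [Walk.support_cons, List.tail_cons, hsup]
    exact List.count_eq_one_of_mem hnd (hall a)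

end Pool.Agent.H56.HC.HL
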