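import Pool.Agent.H44.HC.Targets

set_option autoImplicit false

namespace Pool.Agent.H56.HC.INS

open Pool.Agent.H44.HC SimpleGraph

variable {V : Type} [DecidableEq V]

/-- the list of the end points -/
def gg (L : List (V × V)) : List V := L.flatMap (fun d => [d.1, d.2])

/-- insert the left over vertices -/
def ff (q : V → V) : List V → List (V × V) → List V
  | _, [] => []
  | rest, d :: L => d.1 :: d.2 :: (rest.filter (fun v => q v = q d.2) ++
      ff q (rest.filter (fun v => ¬ (q v = q d.2))) L)

lemma ff_perm (q : V → V) : ∀ (L : List (V × V)) (rest : List V),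
    (ff q rest L).Perm (gg L ++ rest.filter (fun v => ∃ d ∈ L, q d.2 = q v)) := by
  intro L
  induction L with
  | nil => intro rest; simp [ff, gg]
  | cons d L ih =>
    intro rest
    have h1 := ih (rest.filter (fun v => ¬ (q v = q d.2)))
    have h2 : (rest.filter (fun v => q v = q d.2) ++
        (rest.filter (fun v => ¬ (q v = q d.2))).filter (fun v => ∃ d ∈ L, q d.2 = q v)).Perm
        (rest.filter (fun v => ∃ d' ∈ d :: L, q d'.2 = q v)) := by
      have h3 := List.filter_append_perm (fun v => decide (q v = q d.2))
        (rest.filter (fun v => ∃ d' ∈ d :: L, q d'.2 = q v))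
      refine List.Perm.trans (List.Perm.of_eq ?_) h3
      congr 1
      · rw [List.filter_filter]
        apply List.filter_congr
        intro v _
        by_cases hv : q v = q d.2 <;> simp [hv]
      · rw [List.filter_filter, List.filter_filter]
        apply List.filter_congr
        intro v _
        by_cases hv : q v = q d.2
        · simp [hv]
        · have hv' : ¬ (q d.2 = q v) := fun h => hv h.symm
          simp [hv, hv']
    have hgg : gg (d :: L) = d.1 :: d.2 :: gg L := by simp [gg]
    rw [hgg]
    show (d.1 :: d.2 :: (rest.filter (fun v => q v = q d.2) ++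
      ff q (rest.filter (fun v => ¬ (q v = q d.2))) L)).Perm _
    rw [List.cons_append, List.cons_append]
    refine List.Perm.cons _ (List.Perm.cons _ ?_)
    refine List.Perm.trans (List.Perm.append_left _ h1) ?_
    refine List.Perm.trans ?_ (List.Perm.append_left _ h2)
    rw [← List.append_assoc, ← List.append_assoc]
    exact List.Perm.append_right _ List.perm_append_comm

lemma ff_chain (G : SimpleGraph V) (q : V → V) (hcl : ∀ x y, q x = q y → x ≠ y → G.Adj x y) :
    ∀ (L : List (V × V)) (rest : List V), (∀ d ∈ L, G.Adj d.1 d.2) → (gg L ++ rest).Nodup →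
      L.IsChain (fun d d' => q d.2 = q d'.1) →
      (ff q rest L).IsChain G.Adj ∧
      (∀ d, L.head? = some d → (ff q rest L).head? = some d.1) ∧
      (∀ d x, L.getLast? = some d → (ff q rest L).getLast? = some x → q x = q d.2) := by
  intro L
  induction L with
  | nil => intro rest _ _ _; simp [ff]
  | cons d L ih =>
    intro rest hadj hnd hch
    have hgg : gg (d :: L) = d.1 :: d.2 :: gg L := by simp [gg]
    rw [hgg, List.cons_append, List.cons_append] at hnd
    set R := rest.filter (fun v => q v = q d.2) with hR
    set rest' := rest.filter (fun v => ¬ (q v = q d.2)) with hrest'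
    have hnd1 : (d.2 :: (gg L ++ rest)).Nodup := (List.nodup_cons.mp hnd).2
    have hnd2 : (gg L ++ rest).Nodup := (List.nodup_cons.mp hnd1).2
    have hsub' : (gg L ++ rest').Sublist (gg L ++ rest) :=
      List.Sublist.append_left List.filter_sublist _
    have hnd' : (gg L ++ rest').Nodup := hnd2.sublist hsub'
    have hch' : L.IsChain (fun d d' => q d.2 = q d'.1) := by
      cases L with
      | nil => exact List.IsChain.nil
      | cons d' L' => exact (List.isChain_cons_cons.mp hch).2
    obtain ⟨h1, h2, h3⟩ := ih rest' (fun e he => hadj e (List.mem_cons_of_mem _ he)) hnd' hch'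
    have hRq : ∀ x ∈ d.2 :: R, q x = q d.2 := by
      intro x hx
      rcases List.mem_cons.mp hx with rfl | hx
      · rfl
      · have := (List.mem_filter.mp hx).2
        simpa using this
    have hdR : (d.2 :: R).Nodup := by
      have : (d.2 :: R).Sublist (d.2 :: (gg L ++ rest)) := by
        apply List.Sublist.cons_cons
        exact (List.filter_sublist).trans (List.sublist_append_right _ _)
      exact hnd1.sublist this
    have hRch : (d.2 :: R).IsChain G.Adj := by
      apply List.Pairwise.isChain
      refine List.Pairwise.imp_of_mem ?_ hdR
      intro a b ha hb hab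
      exact hcl a b ((hRq a ha).trans (hRq b hb).symm) hab
    have heq : ff q rest (d :: L) = d.1 :: ((d.2 :: R) ++ ff q rest' L) := rfl
    rw [heq]
    refine ⟨?_, ?_, ?_⟩
    · rw [List.cons_append, List.isChain_cons_cons, ← List.cons_append]
      refine ⟨hadj d List.mem_cons_self, ?_⟩
      rw [List.isChain_append]
      refine ⟨hRch, h1, ?_⟩
      intro x hx y hy
      have hx' : x ∈ d.2 :: R := List.mem_of_mem_getLast? hx
      cases L with
      | nil => simp [ff] at hy
      | cons d' L' =>
        have hy' := h2 d' rfl
        rw [hy'] at hy
        have hyd : d'.1 = y := by simpa using hy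
        subst hyd
        have hq : q d.2 = q d'.1 := (List.isChain_cons_cons.mp hch).1
        apply hcl _ _ ((hRq x hx').trans hq)
        rintro rfl
        have hmg : d'.1 ∈ gg (d' :: L') := by simp [gg]
        rcases List.mem_cons.mp hx' with h4 | h4
        · exact (List.nodup_cons.mp hnd1).1 (by rw [← h4]; exact List.mem_append_left _ hmg)
        · have h5 : d'.1 ∈ rest := (List.mem_filter.mp h4).1
          exact (List.disjoint_of_nodup_append hnd2) hmg h5
    · intro e he
      have : d = e := by simpa using he
      subst this
      rfl
    · intro e x he hx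
      cases L with
      | nil =>
        have : d = e := by simpa using he
        subst this
        have hx2 : (d.1 :: (d.2 :: R)).getLast? = some x := by simpa [ff] using hx
        rw [List.getLast?_cons_cons] at hx2
        exact hRq x (List.mem_of_mem_getLast? hx2)
      | cons d' L' =>
        rw [List.getLast?_cons_cons] at he
        have hne : ff q rest' (d' :: L') ≠ [] := by simp [ff]
        apply h3 e x he
        rw [← hx, List.cons_append, List.getLast?_cons_cons, ← List.cons_append,
          List.getLast?_append]
        obtain ⟨z, hz⟩ : ∃ z, (ff q rest' (d' :: L')).getLast? = some z :=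
          ⟨_, List.getLast?_eq_some_getLast hne⟩
        rw [hz]
        rfl

theorem ins (h : T_HL) : T_INS := by
  intro V _ _ G q L hcl hcard hadj hnd hch hclose hall
  set U : List V := (Finset.univ : Finset V).toList.filter (fun v => v ∉ gg L) with hU
  have hUnd : U.Nodup := (Finset.nodup_toList _).filter _
  have hnd' : (gg L ++ U).Nodup := by
    rw [List.nodup_append]
    refine ⟨hnd, hUnd, ?_⟩
    intro a ha b hb hab
    subst hab
    have := (List.mem_filter.mp hb).2
    simp at this
    exact this ha
  obtain ⟨h1, h2, h3⟩ := ff_chain G q hcl L U hadj hnd' hch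
  have hperm := ff_perm q L U
  have hFnd : (ff q U L).Nodup := by
    rw [hperm.nodup_iff]
    exact hnd'.sublist (List.Sublist.append_left List.filter_sublist _)
  have hFall : ∀ v, v ∈ ff q U L := by
    intro v
    rw [hperm.mem_iff, List.mem_append]
    by_cases hv : v ∈ gg L
    · exact Or.inl hv
    · right
      rw [List.mem_filter]
      refine ⟨?_, by simpa using hall v⟩
      rw [hU, List.mem_filter]
      exact ⟨Finset.mem_toList.mpr (Finset.mem_univ v), by simpa using hv⟩
  have hlen : 3 ≤ (ff q U L).length := by
    have : (ff q U L).toFinset = Finset.univ := by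
      ext v; simp [hFall v]
    rw [← List.toFinset_card_of_nodup hFnd, this, Finset.card_univ]
    exact hcard
  refine h V G (ff q U L) hlen hFnd hFall h1 ?_
  intro u v hu hv
  have hne : L ≠ [] := by
    rintro rfl
    simp [ff] at hlen
  have e1 := h2 _ (List.head?_eq_some_head hne)
  have e2 := h3 _ v (List.getLast?_eq_some_getLast hne) hv
  rw [hu] at e1
  have hu' : u = (L.head hne).1 := by simpa using e1
  have e3 := hclose _ _ (List.head?_eq_some_head hne) (List.getLast?_eq_some_getLast hne)
  apply hcl
  · rw [e2, e3, hu']
  · rintro rfl
    -- head and last coincide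
    rcases hF : ff q U L with _ | ⟨a, F⟩
    · rw [hF] at hlen; simp at hlen
    · rw [hF] at hu hv hFnd hlen
      have ha : a = v := by simpa using hu
      subst ha
      rcases F with _ | ⟨b, F⟩
      · simp at hlen
      · rw [List.getLast?_cons_cons] at hv
        exact (List.nodup_cons.mp hFnd).1 (List.mem_of_mem_getLast? hv)

end Pool.Agent.H56.HC.INS
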